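import Pool.Agent.W418.LU2.Off

/-!
MP_3029eb_ag: local uniformization, in every dimension and also in mixed characteristic, of local
rings of residue characteristic `p` of rings which are generated by monomials in the following
sense. The fraction field `K` is generated over a field `E` by finite-dimensional subspaces which
satisfy a complete system of relations `f j = 0`, where the `f j` are sums of products of elements
of the subspaces whose degrees are independent modulo `p`, and the ring is generated over a base
ring `R₀` in `E` by products of powers of elements of `E`, of the subspaces and of the `f j`. The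
base ring is a Dedekind ring or a field with fraction field `E`, or more generally a ring such that
the valuations of `E` are log uniformizable over `R₀`.
-/

set_option autoImplicit false

universe u

namespace Pool.Agent.Results.MP_3029eb_ag.MonomialLocalRings

open Pool.Agent.W418.LU2

/-- The local ring of `Spec B` at the centre of the valuation ring `V`: the fractions of elements
of `B` whose denominators are units of `V`. -/
def centreRing {F : Type u} [Field F] (V : ValuationSubring F) (B : Subring F) : Subring F where
  carrier := {x | ∃ a ∈ B, ∃ b ∈ B, b ≠ 0 ∧ b⁻¹ ∈ V ∧ x = a * b⁻¹}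
  mul_mem' := (lo V.toSubring B).mul_mem'
  one_mem' := (lo V.toSubring B).one_mem'
  add_mem' := (lo V.toSubring B).add_mem'
  zero_mem' := (lo V.toSubring B).zero_mem'
  neg_mem' := (lo V.toSubring B).neg_mem'

/-- The chart `A[I / f]` of the blowing-up of `Spec A` in the ideal `I`. -/
def blowUpChart {F : Type u} [Field F] (A : Subring F) (I : Ideal A) (f : A) : Subring F :=
  Subring.closure ((A : Set F) ∪ {z | ∃ a ∈ I, z = (a : F) / (f : F)})

/-- `P` is a regular local ring and the zero set of `J` is a divisor with strict normal
crossings: the radical of `J` is generated by the product of some of the elements of a regular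
system of parameters. -/
def RegularPair (P : Type u) [CommRing P] (J : Ideal P) : Prop :=
  ∃ (_ : IsRegularLocalRing P) (n : ℕ) (x : Fin n → P) (s : Finset (Fin n)),
    Ideal.span (Set.range x) = IsLocalRing.maximalIdeal P ∧ ringKrullDim P = n ∧
      J.radical = Ideal.span {∏ i ∈ s, x i}

/-- The blowing-up of `X = Spec A` in `V(I)` is a log desingularization of `(X, V(D))` along the
valuation ring `U`: it is regular at the centre of the lift of the valuation, and the preimage of
`V(D) ∪ V(I)` is a divisor with strict normal crossings there. Here `f ∈ I` generates `I U`. -/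
def IsLogDesingularization {F : Type u} [Field F] (U : ValuationSubring F) (A : Subring F)
    (D I : Ideal A) : Prop :=
  ∃ f ∈ I, f ≠ 0 ∧ (∀ a ∈ I, (a : F) / (f : F) ∈ U) ∧
    RegularPair (centreRing U (blowUpChart A I f))
      (Ideal.span {z | ∃ a ∈ D * I, (z : F) = (a : F)})

/-- The valuation ring `U` is log uniformizable on `Spec A`. (The blowings-up in the ideals
`I₀ * I₁` are cofinal.) -/
def IsLogUniformizable {F : Type u} [Field F] (U : ValuationSubring F) (A : Subring F) : Prop :=
  ∀ D I₀ : Ideal A, D ≠ ⊥ → I₀ ≠ ⊥ →
    ∃ I₁ : Ideal A, I₁ ≠ ⊥ ∧ IsLogDesingularization U A D (I₀ * I₁)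

/-- `E` is the field of fractions of its subring `R`. -/
def IsFieldOfFractions {E : Type u} [Field E] (R : Subring E) : Prop :=
  ∀ z : E, ∃ a ∈ R, ∃ b ∈ R, b ≠ 0 ∧ z = a * b⁻¹

/-- Every valuation ring `U` of `E` which contains `R₀` contains a finitely generated `R₀`-algebra
`R'` with fraction field `E` which is a Dedekind ring (or a field), or which is noetherian and
such that `U` is log uniformizable on `Spec R'`. -/
def HasLogUniformization {E : Type u} [Field E] (R₀ : Subring E) : Prop :=
  ∀ U : ValuationSubring E, R₀ ≤ U.toSubring → ∃ R' : Subring E,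
    (∃ S : Set E, S.Finite ∧ R' = Subring.closure ((R₀ : Set E) ∪ S)) ∧ R' ≤ U.toSubring ∧
    IsFieldOfFractions R' ∧ (IsDedekindDomain R' ∨ IsNoetherianRing R' ∧ IsLogUniformizable U R')

/-- The group of monomials: the subgroup of `Kˣ` which is generated by the nonzero elements of
`E`, by the nonzero elements of the subspaces `W s`, and by the nonzero elements `f l`. -/
def monomials {E K : Type u} [Field E] [Field K] [Algebra E K] {n r : ℕ}
    (W : Fin n → Submodule E K) (f : Fin r → K) : Subgroup Kˣ :=
  Subgroup.closure {u | (u : K) ∈ Set.range (algebraMap E K) ∨ (∃ s, (u : K) ∈ W s) ∨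
    ∃ l, (u : K) = f l}

/-- The subring `A` of `K` is generated over the image of `R₀` by finitely many monomials. -/
def IsMonomialRing {E K : Type u} [Field E] [Field K] [Algebra E K] {n r : ℕ}
    (W : Fin n → Submodule E K) (f : Fin r → K) (R₀ : Subring E) (A : Subring K) : Prop :=
  ∃ G : Set K, G.Finite ∧ (∀ z ∈ G, ∃ u ∈ monomials W f, (u : K) = z) ∧
    A = Subring.closure ((R₀.map (algebraMap E K) : Set K) ∪ G)

/-- The degree modulo `p` of a product of `d s` elements of `W s` for all `s` and of the powers
`f l ^ e l`, where `f l` has the degree `deg l`. -/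
def degree {p n r : ℕ} (deg : Fin r → Fin n → ZMod p) (d : Fin n → ℕ) (e : Fin r → ℕ) :
    Fin n → ZMod p :=
  fun s => d s + ∑ l, e l * deg l s

/-- Each `f j` is a sum of terms, indexed by `ι j`, where the term with the index `i` is the product
of a nonzero element `c j i` of `E`, of `d j i s` nonzero elements `g j i s t` of `W s` for all `s`,
and of the powers `f l ^ e j i l`, where `f l ≠ 0` and `l < j` if `e j i l ≠ 0`. -/
def IsExpansion {E K : Type u} [Field E] [Field K] [Algebra E K] {n r : ℕ}
    (W : Fin n → Submodule E K) (f : Fin r → K) (ι : Fin r → Type) [∀ j, Fintype (ι j)]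
    (c : ∀ j, ι j → E) (d : ∀ j, ι j → Fin n → ℕ) (g : ∀ j i s, Fin (d j i s) → K)
    (e : ∀ j, ι j → Fin r → ℕ) : Prop :=
  (∀ j i, c j i ≠ 0) ∧ (∀ j i s t, g j i s t ∈ W s ∧ g j i s t ≠ 0) ∧
    (∀ j i l, e j i l ≠ 0 → l < j ∧ f l ≠ 0) ∧
    ∀ j, f j = ∑ i, algebraMap E K (c j i) * ((∏ s, ∏ t, g j i s t) * ∏ l, f l ^ e j i l)

/-- If `f j` gets the degree (in `(ℤ/p)^n`) of its first term (the term with the index `i₀ j`), then
the differences of the degrees of the other terms of `f j` and the degree of `f j`, for all `j`
together, are linearly independent modulo `p`. -/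
def HasIndependentDegrees (p : ℕ) {n r : ℕ} (ι : Fin r → Type) (d : ∀ j, ι j → Fin n → ℕ)
    (e : ∀ j, ι j → Fin r → ℕ) : Prop :=
  ∃ (i₀ : ∀ j, ι j) (deg : Fin r → Fin n → ZMod p),
    (∀ j, deg j = degree deg (d j (i₀ j)) (e j (i₀ j))) ∧
    LinearIndependent (ZMod p) fun q : (j : Fin r) × {i : ι j // i ≠ i₀ j} =>
      degree deg (d q.1 q.2) (e q.1 q.2) - deg q.1

/-- The `E`-subspaces `W 0, ..., W (n - 1)` of `K` and the elements `f 0, ..., f (r - 1)` of `K` form
a complete system modulo `p`: the subspaces `W s` have finite dimension and generate the field `K`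
over `E`; the `f j` are sums of products of elements of `E`, of the `W s` and of previous `f l`, with
independent degrees modulo `p`; and the transcendence degree of `K` over `E` is the sum of the
dimensions of the `W s` minus the number of indices `j` with `f j = 0`. -/
def CompleteSystem {E K : Type u} [Field E] [Field K] [Algebra E K] (p : ℕ) {n r : ℕ}
    (W : Fin n → Submodule E K) (f : Fin r → K) : Prop :=
  (∀ s, FiniteDimensional E (W s)) ∧ IntermediateField.adjoin E (⋃ s, (W s : Set K)) = ⊤ ∧
    Algebra.trdeg E K + (Nat.card {j // f j = 0} : Cardinal.{u}) =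
      ((∑ s, Module.finrank E (W s) : ℕ) : Cardinal.{u}) ∧
    ∃ (ι : Fin r → Type) (_ : ∀ j, Fintype (ι j)) (c : ∀ j, ι j → E)
      (d : ∀ j, ι j → Fin n → ℕ) (g : ∀ j i s, Fin (d j i s) → K) (e : ∀ j, ι j → Fin r → ℕ),
      IsExpansion W f ι c d g e ∧ HasIndependentDegrees p ι d e

/-- The local domain `R` with fraction field `K` admits local uniformization: for every valuation
ring `V` of `K` centred on `R` there is a finitely generated `R`-algebra `B` in `V` whose
localization at the centre of `V` is regular. -/
def AdmitsLocalUniformization (R K : Type u) [CommRing R] [Field K] [Algebra R K] : Prop :=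
  ∀ V : ValuationSubring K, (∀ r : R, algebraMap R K r ∈ V) →
    (∀ r : R, r ∈ nonunits R ↔ V.valuation (algebraMap R K r) < 1) →
    ∃ B : Subalgebra R K, B.FG ∧ (∀ b : B, (b : K) ∈ V) ∧
      ∃ P : Ideal B, ∃ (_ : P.IsPrime),
        (∀ b : B, b ∈ P ↔ V.valuation (b : K) < 1) ∧
        IsRegularLocalRing (Localization.AtPrime P)

/-- Let `p` be a prime number, and let `R₀` be a subring of a field `E` such that `R₀` is a Dedekind
ring (or a field) with fraction field `E`, or such that the valuation rings of `E` which contain
`R₀` are log uniformizable over `R₀`. Let `K` be an extension of `E` with a complete system modulo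
`p` of subspaces `W s` and elements `f j`. Let `A` be a subring of `K` which is generated over `R₀`
by finitely many monomials, and let `R` be the local ring of `A` at a prime ideal `q` which contains
`p`. If `K` is the fraction field of `R`, then `R` admits local uniformization. -/
theorem result {E K : Type u} [Field E] [Field K] [Algebra E K] (p : ℕ) [Fact p.Prime]
    (R₀ : Subring E)
    (hR : (IsDedekindDomain R₀ ∧ IsFieldOfFractions R₀) ∨ HasLogUniformization R₀)
    (n r : ℕ) (W : Fin n → Submodule E K) (f : Fin r → K) (hWf : CompleteSystem p W f)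
    (A : Subring K) (hA : IsMonomialRing W f R₀ A)
    (q : Ideal A) [q.IsPrime] (hpq : ((p : ℕ) : A) ∈ q)
    (R : Type u) [CommRing R] [Algebra A R] [IsLocalization.AtPrime R q] [Algebra R K]
    [IsScalarTower A R K] [IsFractionRing R K] : AdmitsLocalUniformization R K := by
  have hLU : HasLU R₀ := by
    rcases hR with ⟨hR, hfr⟩ | hR
    · intro U hU
      have h1 : Subring.closure ((R₀ : Set E) ∪ ∅) = R₀ := by
        rw [Set.union_empty, Subring.closure_eq]
      refine ⟨∅, Set.finite_empty, ?_⟩
      rw [h1]
      exact ⟨hU, hfr, Or.inl hR⟩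
    · intro U hU
      obtain ⟨R', ⟨S, hS, rfl⟩, h1, h2, h3⟩ := hR U hU
      exact ⟨S, hS, h1, h2, h3⟩
  obtain ⟨hfin, hgen, htr, ι, _, c, d, g, e, ⟨hc, hg, he, hf⟩, i₀, deg, hdeg, hind⟩ := hWf
  obtain ⟨G, hG, hGm, hA⟩ := hA
  intro V hV1 hV2
  exact off R₀ hLU W hgen ι i₀ c hc d g (fun j i s t => (hg j i s t).1)
    (fun j i s t => (hg j i s t).2) e f he hf deg hdeg hind htr A G hG hGm hA q hpq R V
    hV1 hV2

end Pool.Agent.Results.MP_3029eb_ag.MonomialLocalRings
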