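import Pool.Agent.W558.WD.Asm5
import Pool.Agent.W418.LU.Torus

/-!
MP_3029eb_ag: local uniformization of the local rings of the purely inseparable hypersurfaces
`z ^ p = f 1 (x 1, y 1) + ... + f m (x m, y m)` over a perfect field of characteristic `p`, with
arbitrary polynomials `f i` in two variables, in every (even) dimension `2 * m`, and of the affine
varieties of this kind. See MP_b525bf_ag.PurelyInseparableCovers for the proof of the resolution of
singularities of these varieties, and for its authors.
-/

set_option autoImplicit false

namespace Pool.Agent.Results.MP_3029eb_ag.PurelyInseparableCovers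

open Pool.Agent.W558 Pool.Agent.W418.LU

/-- Let `k` be a perfect field of characteristic `p`, let `A` be a finitely generated `k`-algebra
which is a domain with fraction field `L`, let `x i 0, x i 1` (`i = 1, ..., m`) be algebraically
independent elements of `L`, and let `f i = P i / Q i` be rational functions in two variables over
`k`. Suppose that `L` is generated over `k` by the `x i j` and an element `z` which is not contained
in the field `k(x)` and satisfies `z ^ p = f 1 (x 1 0, x 1 1) + ... + f m (x m 0, x m 1)`, and that
`A` is integral over the subalgebra generated by finitely many elements each of which is a product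
of rational functions in the pairs `x i 0, x i 1`; for example over the polynomial ring `k[x]`, as
is the coordinate ring of the hypersurface `z ^ p = f 1 + ... + f m` for polynomials `f i`. Then the
local ring `R` of `A` at any prime ideal `q` admits local uniformization: for every valuation ring
`V` of the fraction field `K` of `R` centred on `R` there is a finitely generated `R`-algebra in `V`
whose localization at the centre of `V` is regular. -/
theorem result (p : ℕ) [Fact p.Prime] {k A : Type} [Field k] [PerfectField k] [CharP k p]
    [CommRing A] [IsDomain A] [Algebra k A] [Algebra.FiniteType k A]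
    (m : ℕ) (x : Fin m → Fin 2 → FractionRing A)
    (P Q : Fin m → MvPolynomial (Fin 2) k) (z : FractionRing A)
    (hx : AlgebraicIndependent k (fun q : Fin m × Fin 2 => x q.1 q.2)) (hQ : ∀ i, Q i ≠ 0)
    (hz : z ^ p = ∑ i, MvPolynomial.aeval (x i) (P i) / MvPolynomial.aeval (x i) (Q i))
    (hzx : z ∉ IntermediateField.adjoin k (Set.range fun q : Fin m × Fin 2 => x q.1 q.2))
    (hgen : IntermediateField.adjoin k
      (insert z (Set.range fun q : Fin m × Fin 2 => x q.1 q.2)) = ⊤) (S : Finset A)
    (hS : ∀ a ∈ S, ∃ F H : Fin m → MvPolynomial (Fin 2) k, (∀ i, F i ≠ 0 ∧ H i ≠ 0) ∧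
      algebraMap A (FractionRing A) a =
        ∏ i, MvPolynomial.aeval (x i) (F i) / MvPolynomial.aeval (x i) (H i))
    (hA : ∀ a : A, IsIntegral (Algebra.adjoin k (S : Set A)) a)
    (q : Ideal A) [q.IsPrime] (R : Type) [CommRing R] [Algebra A R] [IsLocalization.AtPrime R q]
    (K : Type) [Field K] [Algebra R K] [IsFractionRing R K] (V : ValuationSubring K)
    (hV1 : ∀ r : R, algebraMap R K r ∈ V)
    (hV2 : ∀ r : R, r ∈ nonunits R ↔ V.valuation (algebraMap R K r) < 1) :
    ∃ B : Subalgebra R K, B.FG ∧ (∀ b : B, (b : K) ∈ V) ∧
      ∃ P : Ideal B, ∃ (_ : P.IsPrime),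
        (∀ b : B, b ∈ P ↔ V.valuation (b : K) < 1) ∧
        IsRegularLocalRing (Localization.AtPrime P) := by
  have hR : IsLocalRing R := IsLocalization.AtPrime.isLocalRing R q
  obtain ⟨T, I, _, _, ⟨M⟩⟩ := wild_LM p k (FractionRing A) m x P Q z hx hQ hz hzx hgen A S hS hA
  obtain ⟨B, h1, h2, P, hP, h3, h4, h5⟩ := uniformized_of_LM M q (R := R) (K := K) V hV1
    (fun r => (IsLocalRing.mem_maximalIdeal r).trans (hV2 r))
  exact ⟨B, h1, h2, P, hP, h3, (IsRegularLocalRing.iff_finrank_cotangentSpace _).2 h5.symm⟩

end Pool.Agent.Results.MP_3029eb_ag.PurelyInseparableCovers
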