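import Pool.Agent.W558.WT.LU
import Pool.Agent.W348.WTM.Mod
import Pool.Agent.W135.WT.Fam

/-!
MP_3029eb_ag: local uniformization of the local rings of the quotients of products of surfaces of
characteristic `p` by elementary abelian `p`-groups which act factorwise, for example
`(X_1 × ... × X_n) / (ℤ/p)` with the diagonal action. See MP_19ffc6_ag.SurfaceProductQuotients for
the proof of the resolution of singularities of these varieties, and for its authors.
-/

set_option autoImplicit false

open Pool.Agent.W558.WT

universe u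

namespace Pool.Agent.Results.MP_3029eb_ag.SurfaceProductQuotients

/-- The algebra `B` with the homomorphisms `j i : A i → B` is the tensor product over `k` of the
algebras `A i`: homomorphisms `f i` from the `A i` to a commutative `k`-algebra `S` correspond to
homomorphisms `g` from `B` to `S`. So `Spec B` is the product of the `Spec (A i)` over `k`. -/
def IsTensorProduct {k : Type u} [Field k] {n : ℕ} {A : Fin n → Type u} [∀ i, CommRing (A i)]
    [∀ i, Algebra k (A i)] {B : Type u} [CommRing B] [Algebra k B] (j : ∀ i, A i →ₐ[k] B) :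
    Prop :=
  ∀ (S : Type u) [CommRing S] [Algebra k S] (f : ∀ i, A i →ₐ[k] S),
    ∃! g : B →ₐ[k] S, ∀ i a, g (j i a) = f i a

/-- The coordinate ring `k[H_0 / H_j, ..., H_N / H_j]` of the chart `H_j ≠ 0` of the projective
variety over `k` with the homogeneous coordinates `H_0, ..., H_N` in a field `K`. -/
def chart (k : Type u) {K : Type u} [Field k] [Field K] [Algebra k K] {N : ℕ}
    (H : Fin (N + 1) → K) (j : Fin (N + 1)) : Subalgebra k K :=
  Algebra.adjoin k (Set.range fun l => H l / H j)

/-- The quotient of the affine variety `Spec A` by the automorphism `σ` is birational to a smooth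
projective variety. Here `K` is the fraction field of `A`, the projective variety is given by
homogeneous coordinates `H_0, ..., H_N` in `K`: its charts are smooth over `k`, and its function
field, the field of quotients of elements of a chart, consists of the `σ`-invariant elements
`a / b` of `K`, `(σ a) / (σ b) = a / b`. For surfaces over perfect fields this condition is always
satisfied by the resolution of singularities of surfaces. -/
def HasSmoothProjectiveQuotient {k A : Type u} (K : Type u) [Field k] [CommRing A] [Algebra k A]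
    [Field K] [Algebra k K] [Algebra A K] (σ : A ≃ₐ[k] A) : Prop :=
  ∃ (N : ℕ) (H : Fin (N + 1) → K), (∀ l, H l ≠ 0) ∧
    (∀ j, Algebra.Smooth k (chart k H j)) ∧
    ∀ j (a b : A), b ≠ 0 → (σ a * b = a * σ b ↔
      ∃ u ∈ chart k H j, ∃ v ∈ chart k H j, v ≠ 0 ∧ algebraMap A K a / algebraMap A K b = u / v)

/-- The group `(ℤ/p)^n` acts on the tensor product `B` of the algebras `A i` factorwise:
`g = (g_1, ..., g_n)` acts by the automorphism which is equal to `(σ i) ^ (g_i)` on `A i`. -/
def ActsFactorwise {p n : ℕ} {k : Type u} [Field k] {A : Fin n → Type u} [∀ i, CommRing (A i)]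
    [∀ i, Algebra k (A i)] {B : Type u} [CommRing B] [Algebra k B] (j : ∀ i, A i →ₐ[k] B)
    (σ : ∀ i, A i ≃ₐ[k] A i) (act : (Fin n → ZMod p) → B ≃ₐ[k] B) : Prop :=
  ∀ g i a, act g (j i a) = j i ((σ i ^ (g i).val) a)

/-- The algebra of invariants of the automorphisms `act g`, `g ∈ G`. -/
def invariants {p n : ℕ} {k B : Type u} [Field k] [CommRing B] [Algebra k B]
    (act : (Fin n → ZMod p) → B ≃ₐ[k] B) (G : AddSubgroup (Fin n → ZMod p)) : Subalgebra k B where
  carrier := {b | ∀ g ∈ G, act g b = b}
  mul_mem' := fun ha hb g hg => by rw [map_mul, ha g hg, hb g hg]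
  add_mem' := fun ha hb g hg => by rw [map_add, ha g hg, hb g hg]
  algebraMap_mem' := fun c g _ => AlgEquiv.commutes _ c

/-- The local domain `R` admits local uniformization: for every valuation ring `V` of the fraction
field `K` of `R` centred on `R` there is a finitely generated `R`-algebra `B` in `V` whose
localization at the centre `P` of `V` is regular. -/
def AdmitsLocalUniformization (R : Type) [CommRing R] : Prop :=
  ∀ (K : Type) [Field K] [Algebra R K] [IsFractionRing R K] (V : ValuationSubring K),
    (∀ r : R, algebraMap R K r ∈ V) →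
    (∀ r : R, r ∈ nonunits R ↔ V.valuation (algebraMap R K r) < 1) →
    ∃ B : Subalgebra R K, B.FG ∧ (∀ b : B, (b : K) ∈ V) ∧
      ∃ P : Ideal B, ∃ (_ : P.IsPrime),
        (∀ b : B, b ∈ P ↔ V.valuation (b : K) < 1) ∧
        IsRegularLocalRing (Localization.AtPrime P)

/-- Let `p` be a prime, `k` a perfect field of characteristic `p` and `Spec (A i)`, `i < n`, affine
surfaces over `k`: the `A i` are domains of finite type and of dimension 2 over `k`. Let `σ i` be
automorphisms of `A i` over `k` with `(σ i) ^ p = 1` such that the quotient of `Spec (A i)` by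
`σ i` is birational to a smooth projective surface (this is always the case). Let `Spec B` be the
product of the surfaces over `k`, assumed to be integral, and let `g ∈ (ℤ/p)^n` act on `B` by the
automorphism `act g` which is equal to `(σ i) ^ (g i)` on `A i`. Let `G` be a subgroup of
`(ℤ/p)^n`, for example the diagonal. Then the local ring `R` of the quotient of the product of the
surfaces by `G` at any point, that is, of the algebra of invariants at a prime ideal `q`, admits
local uniformization. -/
theorem result (p : ℕ) [Fact p.Prime] (k : Type) [Field k] [CharP k p] [PerfectField k] (n : ℕ)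
    (A K : Fin n → Type) [∀ i, CommRing (A i)] [∀ i, IsDomain (A i)] [∀ i, Algebra k (A i)]
    [∀ i, Algebra.FiniteType k (A i)] (hA : ∀ i, Algebra.trdeg k (A i) = 2) [∀ i, Field (K i)]
    [∀ i, Algebra k (K i)] [∀ i, Algebra (A i) (K i)] [∀ i, IsScalarTower k (A i) (K i)]
    [∀ i, IsFractionRing (A i) (K i)] (σ : ∀ i, A i ≃ₐ[k] A i) (hσ : ∀ i, σ i ^ p = 1)
    (hq : ∀ i, HasSmoothProjectiveQuotient (K i) (σ i))
    (B : Type) [CommRing B] [IsDomain B] [Algebra k B] (j : ∀ i, A i →ₐ[k] B)
    (hj : IsTensorProduct j) (act : (Fin n → ZMod p) → B ≃ₐ[k] B)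
    (hact : ActsFactorwise j σ act) (G : AddSubgroup (Fin n → ZMod p))
    (q : Ideal (invariants act G)) [q.IsPrime] (R : Type) [CommRing R]
    [Algebra (invariants act G) R] [IsLocalization.AtPrime R q] :
    AdmitsLocalUniformization R := by
  have hj' : Pool.Agent.W558.WT.IsTP j := by
    refine ⟨fun S _ _ f => (hj S f).exists, fun S _ _ g g' h => ?_⟩
    exact (hj S fun i => g.comp (j i)).unique (fun i a => rfl) fun i a => (h i a).symm
  let sK : ∀ i, K i ≃ₐ[k] K i := fun i => IsFractionRing.algEquivOfAlgEquiv (σ i)
  have hsK : ∀ i a, sK i (algebraMap (A i) (K i) a) = algebraMap (A i) (K i) (σ i a) :=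
    fun i a => IsFractionRing.algEquivOfAlgEquiv_algebraMap _ _
  have hm : ∀ i, Algebra.trdeg k (Pool.Agent.W558.WT.fixF {sK i}) = 2 ∧
      Pool.Agent.W558.HasModel k (Pool.Agent.W558.WT.fixF {sK i}) := by
    intro i
    obtain ⟨N, H, h1, h2, h3⟩ := hq i
    exact Pool.Agent.W348.WTM.main p k (A i) (K i) (σ i) (sK i) (hsK i) (hσ i) (hA i) N H h1 h2 h3
  obtain ⟨-, L, i1, i2, i3, i4, i5, T, I, -, -, ⟨M⟩⟩ :=
    Pool.Agent.W558.quot3 Pool.Agent.W558.wt_pack Pool.Agent.W558.ws_pack
      Pool.Agent.W558.wt_gal Pool.Agent.W558.wt_fri Pool.Agent.W558.wt_art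
      (Pool.Agent.W135.WT.Fam.main Pool.Agent.W558.wa_prod) p k n A K B j hj' σ hσ sK hsK
      (fun i => (hm i).1) (fun i => (hm i).2) G act hact (invariants act G) (fun b => Iff.rfl)
  intro K' _ _ _ V hV1 hV2
  have hR : IsLocalRing R := IsLocalization.AtPrime.isLocalRing R q
  obtain ⟨B', h1, h2, P, hP, h3, h4, h5⟩ := uniformized_of_LM2 M q (R := R) (K := K') V hV1
    (fun r => (IsLocalRing.mem_maximalIdeal r).trans (hV2 r))
  exact ⟨B', h1, h2, P, hP, h3, (IsRegularLocalRing.iff_finrank_cotangentSpace _).2 h5.symm⟩

end Pool.Agent.Results.MP_3029eb_ag.SurfaceProductQuotients
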