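import Pool.Agent.W418.LU.Torus

set_option autoImplicit false

namespace Pool.Agent.Results.MP_3029eb_ag.TorusComplexityTwo

open Pool.Agent.W558 Pool.Agent.W418.LU

/-- Let `k` be a perfect field and let `A` be a finitely generated `k`-algebra which is a domain
and graded by `ℤ^r`, such that the field of homogeneous fractions of degree zero of `A` has
transcendence degree two over `k` and is the function field of a smooth projective surface over
`k`. Then the local ring `R` of `A` at any prime ideal `q`, homogeneous or not, admits local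
uniformization: for every valuation ring `V` of the fraction field `K` of `R` centred on `R` there
is a finitely generated `R`-algebra in `V` whose localization at the centre of `V` is regular. -/
theorem result {k A : Type} [Field k] [PerfectField k] [CommRing A] [IsDomain A] [Algebra k A]
    [Algebra.FiniteType k A] {r : ℕ} (𝒜 : (Fin r → ℤ) → Submodule k A) [GradedAlgebra 𝒜]
    (h2 : Algebra.trdeg k (homFrac 𝒜) = 2) (hM : HasModel k (homFrac 𝒜))
    (q : Ideal A) [q.IsPrime] (R : Type) [CommRing R] [Algebra A R] [IsLocalization.AtPrime R q]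
    (K : Type) [Field K] [Algebra R K] [IsFractionRing R K] (V : ValuationSubring K)
    (hV1 : ∀ r : R, algebraMap R K r ∈ V)
    (hV2 : ∀ r : R, r ∈ nonunits R ↔ V.valuation (algebraMap R K r) < 1) :
    ∃ B : Subalgebra R K, B.FG ∧ (∀ b : B, (b : K) ∈ V) ∧
      ∃ P : Ideal B, ∃ (_ : P.IsPrime),
        (∀ b : B, b ∈ P ↔ V.valuation (b : K) < 1) ∧
        IsRegularLocalRing (Localization.AtPrime P) := by
  have hR : IsLocalRing R := IsLocalization.AtPrime.isLocalRing R q
  obtain ⟨T, I, _, _, ⟨M⟩⟩ := exists_LM k A r 𝒜 h2 hM
  obtain ⟨B, h1, h2, P, hP, h3, h4, h5⟩ := uniformized_of_LM M q (R := R) (K := K) V hV1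
    (fun r => (IsLocalRing.mem_maximalIdeal r).trans (hV2 r))
  exact ⟨B, h1, h2, P, hP, h3, (IsRegularLocalRing.iff_finrank_cotangentSpace _).2 h5.symm⟩

end Pool.Agent.Results.MP_3029eb_ag.TorusComplexityTwo
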